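import Pool.Agent.TH316.AT.Ex

/-!
# Existence for the Parisi equation: the fixed point (EX-FP)
-/

set_option autoImplicit false

open MeasureTheory ProbabilityTheory Set Filter Topology

namespace Pool.TH560.AT

open Pool.TH198.AT Pool.TH316.AT

lemma zt_nonneg {ζ : ℝ → ℝ} (hζ : IsCdf ζ) (s : ℝ) : 0 ≤ zt ζ s := by
  unfold zt
  split_ifs with h
  · exact (hζ.2.1 _ ⟨le_max_left _ _, max_le zero_le_one h⟩).1
  · exact le_rfl

lemma zt_le_one {ζ : ℝ → ℝ} (hζ : IsCdf ζ) (s : ℝ) : zt ζ s ≤ 1 := by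
  unfold zt
  split_ifs with h
  · exact (hζ.2.1 _ ⟨le_max_left _ _, max_le zero_le_one h⟩).2
  · exact zero_le_one

lemma zt_meas {ζ : ℝ → ℝ} (hζ : IsCdf ζ) : Measurable (zt ζ) := by
  have hm : Monotone (fun s : ℝ => ζ (max 0 (min s 1))) := by
    intro a b hab
    apply hζ.1
    · exact ⟨le_max_left _ _, max_le zero_le_one (min_le_right _ _)⟩
    · exact ⟨le_max_left _ _, max_le zero_le_one (min_le_right _ _)⟩
    · exact max_le_max le_rfl (min_le_min hab le_rfl)
  have h2 : zt ζ = fun s => if s ≤ 1 then ζ (max 0 (min s 1)) else 0 := by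
    funext s
    unfold zt
    split_ifs with h
    · rw [min_eq_left h]
    · rfl
  rw [h2]
  exact Measurable.ite measurableSet_Iic hm.measurable measurable_const

lemma ck_mem (t : ℝ) : ck t ∈ Icc (0 : ℝ) 1 := by
  unfold ck
  exact ⟨le_max_left _ _, max_le zero_le_one (min_le_right _ _)⟩

lemma ck_of_mem {t : ℝ} (ht : t ∈ Icc (0 : ℝ) 1) : ck t = t := by
  unfold ck
  rw [min_eq_left ht.2, max_eq_right ht.1]

lemma cont_ck : Continuous ck := by
  unfold ck
  fun_prop

lemma cont_E {C σ t x : ℝ} {m : ℝ → ℝ} {g : ℝ → ℝ → ℝ} (hm : Continuous m)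
    (hmi : Integrable m (gaussianReal 0 1)) (hg : BC C g) :
    Continuous (fun u : ℝ => E1 (fun y => m y * g (t + u ^ 2) (x + σ * u * y))) := by
  unfold E1
  refine continuous_of_dominated (bound := fun y => |m y| * C) ?_ ?_ ?_ ?_
  · intro u
    have h1 : Continuous (fun y : ℝ => g (t + u ^ 2) (x + σ * u * y)) :=
      hg.1.comp (continuous_const.prodMk (by fun_prop))
    exact (hm.mul h1).aestronglyMeasurable
  · intro u
    filter_upwards with y
    rw [norm_mul, Real.norm_eq_abs, Real.norm_eq_abs]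
    exact mul_le_mul_of_nonneg_left (hg.2 _ _) (abs_nonneg _)
  · exact hmi.abs.mul_const C
  · filter_upwards with y
    have h1 : Continuous (fun u : ℝ => g (t + u ^ 2) (x + σ * u * y)) :=
      hg.1.comp (Continuous.prodMk (by fun_prop) (by fun_prop))
    exact continuous_const.mul h1

lemma int_E {C s x c : ℝ} {m : ℝ → ℝ} {g : ℝ → ℝ → ℝ} (hm : Continuous m)
    (hmi : Integrable m (gaussianReal 0 1)) (hg : BC C g) :
    Integrable (fun y => m y * g s (x + c * y)) (gaussianReal 0 1) := by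
  refine Integrable.mono' (hmi.abs.mul_const C) ?_ ?_
  · have h1 : Continuous (fun y : ℝ => g s (x + c * y)) :=
      hg.1.comp (continuous_const.prodMk (by fun_prop))
    exact (hm.mul h1).aestronglyMeasurable
  · filter_upwards with y
    rw [norm_mul, Real.norm_eq_abs, Real.norm_eq_abs]
    exact mul_le_mul_of_nonneg_left (hg.2 _ _) (abs_nonneg _)

/-- the kernel bound `∫_0^1 exp(-lam u^2) du ≤ sqrt (π/lam)` -/
lemma kap {lam : ℝ} (hl : 0 < lam) :
    ∫ u in (0 : ℝ)..1, Real.exp (-lam * u ^ 2) ≤ √(Real.pi / lam) := by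
  rw [← integral_gaussian lam, intervalIntegral.integral_of_le zero_le_one]
  exact setIntegral_le_integral (integrable_exp_neg_mul_sq hl)
    (Eventually.of_forall fun u => (Real.exp_pos _).le)

/-- the basic difference estimate -/
lemma gen {ζ : ℝ → ℝ} (hζ : IsCdf ζ) {k m : ℝ → ℝ} {k0 σ C C' δ lam : ℝ} {g g' : ℝ → ℝ → ℝ}
    (hk : Continuous k) (hk0 : ∀ u ∈ Icc (0 : ℝ) 1, |k u| ≤ k0) (hk00 : 0 ≤ k0)
    (hm : Continuous m) (hmi : Integrable m (gaussianReal 0 1))
    (hg : BC C g) (hg' : BC C' g') (hδ : 0 ≤ δ) (hl : 0 < lam)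
    (hd : ∀ s x, |g s x - g' s x| ≤ δ * Real.exp (lam * (1 - ck s)))
    {t : ℝ} (ht : t ∈ Icc (0 : ℝ) 1) (x : ℝ) :
    |(∫ u in (0 : ℝ)..1, k u *
        (zt ζ (t + u ^ 2) * E1 (fun y => m y * g (t + u ^ 2) (x + σ * u * y)))) -
      ∫ u in (0 : ℝ)..1, k u *
        (zt ζ (t + u ^ 2) * E1 (fun y => m y * g' (t + u ^ 2) (x + σ * u * y)))| ≤
      k0 * (∫ y, |m y| ∂(gaussianReal 0 1)) * √(Real.pi / lam) * δ * Real.exp (lam * (1 - t)) := by
  have hii : ∀ (D : ℝ) (q : ℝ → ℝ → ℝ), BC D q → IntervalIntegrable (fun u => k u *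
        (zt ζ (t + u ^ 2) * E1 (fun y => m y * q (t + u ^ 2) (x + σ * u * y)))) volume 0 1 := by
    intro D q hq
    have hc := cont_E (σ := σ) (t := t) (x := x) hm hmi hq
    have h1 : IntervalIntegrable (fun u => k u *
        E1 (fun y => m y * q (t + u ^ 2) (x + σ * u * y))) volume 0 1 :=
      (hk.mul hc).intervalIntegrable _ _
    have h2 : (fun u => k u *
        (zt ζ (t + u ^ 2) * E1 (fun y => m y * q (t + u ^ 2) (x + σ * u * y)))) =
        fun u => zt ζ (t + u ^ 2) * (k u *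
          E1 (fun y => m y * q (t + u ^ 2) (x + σ * u * y))) := by
      funext u
      ring
    rw [h2, intervalIntegrable_iff]
    rw [intervalIntegrable_iff] at h1
    refine Integrable.bdd_mul (c := 1) h1 ?_ ?_
    · exact ((zt_meas hζ).comp (by fun_prop)).aestronglyMeasurable
    · filter_upwards with u
      rw [Real.norm_eq_abs, abs_of_nonneg (zt_nonneg hζ _)]
      exact zt_le_one hζ _
  rw [← intervalIntegral.integral_sub (hii C g hg) (hii C' g' hg')]
  set A := ∫ y, |m y| ∂(gaussianReal 0 1) with hA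
  have hA0 : 0 ≤ A := integral_nonneg fun y => abs_nonneg _
  have hb : ∀ u ∈ Icc (0 : ℝ) 1,
      |k u * (zt ζ (t + u ^ 2) * E1 (fun y => m y * g (t + u ^ 2) (x + σ * u * y))) -
        k u * (zt ζ (t + u ^ 2) * E1 (fun y => m y * g' (t + u ^ 2) (x + σ * u * y)))| ≤
      k0 * A * δ * Real.exp (lam * (1 - t)) * Real.exp (-lam * u ^ 2) := by
    intro u hu
    have e1 : k u * (zt ζ (t + u ^ 2) * E1 (fun y => m y * g (t + u ^ 2) (x + σ * u * y))) -
        k u * (zt ζ (t + u ^ 2) * E1 (fun y => m y * g' (t + u ^ 2) (x + σ * u * y))) =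
        k u * (zt ζ (t + u ^ 2) * E1 (fun y => m y *
          (g (t + u ^ 2) (x + σ * u * y) - g' (t + u ^ 2) (x + σ * u * y)))) := by
      have e2 : E1 (fun y => m y *
          (g (t + u ^ 2) (x + σ * u * y) - g' (t + u ^ 2) (x + σ * u * y))) =
          E1 (fun y => m y * g (t + u ^ 2) (x + σ * u * y)) -
          E1 (fun y => m y * g' (t + u ^ 2) (x + σ * u * y)) := by
        unfold E1
        rw [← integral_sub (int_E (c := σ * u) hm hmi hg) (int_E (c := σ * u) hm hmi hg')]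
        congr 1
        funext y
        ring
      rw [e2]
      ring
    rw [e1, abs_mul]
    have hexp : Real.exp (lam * (1 - t)) * Real.exp (-lam * u ^ 2) =
        Real.exp (lam * (1 - (t + u ^ 2))) := by
      rw [← Real.exp_add]
      congr 1
      ring
    have hR : k0 * A * δ * Real.exp (lam * (1 - t)) * Real.exp (-lam * u ^ 2) =
        k0 * (A * (δ * Real.exp (lam * (1 - (t + u ^ 2))))) := by
      rw [← hexp]
      ring
    rw [hR]
    refine mul_le_mul (hk0 u hu) ?_ (abs_nonneg _) hk00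
    by_cases h1 : t + u ^ 2 ≤ 1
    · have hck : ck (t + u ^ 2) = t + u ^ 2 := ck_of_mem ⟨by nlinarith [ht.1, sq_nonneg u], h1⟩
      rw [abs_mul, abs_of_nonneg (zt_nonneg hζ _)]
      have h3 : |E1 (fun y => m y *
          (g (t + u ^ 2) (x + σ * u * y) - g' (t + u ^ 2) (x + σ * u * y)))| ≤
          A * (δ * Real.exp (lam * (1 - (t + u ^ 2)))) := by
        unfold E1
        rw [hA, ← integral_mul_const]
        rw [← Real.norm_eq_abs]
        refine norm_integral_le_of_norm_le (hmi.abs.mul_const _) ?_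
        filter_upwards with y
        rw [norm_mul, Real.norm_eq_abs, Real.norm_eq_abs]
        refine mul_le_mul_of_nonneg_left ?_ (abs_nonneg _)
        have := hd (t + u ^ 2) (x + σ * u * y)
        rwa [hck] at this
      calc zt ζ (t + u ^ 2) * |E1 (fun y => m y *
          (g (t + u ^ 2) (x + σ * u * y) - g' (t + u ^ 2) (x + σ * u * y)))|
          ≤ 1 * |E1 (fun y => m y *
          (g (t + u ^ 2) (x + σ * u * y) - g' (t + u ^ 2) (x + σ * u * y)))| :=
            mul_le_mul_of_nonneg_right (zt_le_one hζ _) (abs_nonneg _)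
        _ ≤ _ := by rw [one_mul]; exact h3
    · have hz : zt ζ (t + u ^ 2) = 0 := by
        unfold zt
        rw [if_neg h1]
      rw [hz, zero_mul, abs_zero]
      positivity
  have hint : IntervalIntegrable (fun u : ℝ =>
      k0 * A * δ * Real.exp (lam * (1 - t)) * Real.exp (-lam * u ^ 2)) volume 0 1 :=
    Continuous.intervalIntegrable (by fun_prop) _ _
  have h4 := intervalIntegral.norm_integral_le_of_norm_le (μ := volume) zero_le_one
    (f := fun u => k u * (zt ζ (t + u ^ 2) * E1 (fun y => m y * g (t + u ^ 2) (x + σ * u * y))) -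
        k u * (zt ζ (t + u ^ 2) * E1 (fun y => m y * g' (t + u ^ 2) (x + σ * u * y))))
    (g := fun u : ℝ => k0 * A * δ * Real.exp (lam * (1 - t)) * Real.exp (-lam * u ^ 2))
    (by
      filter_upwards with u hu
      rw [Real.norm_eq_abs]
      exact hb u ⟨hu.1.le, hu.2⟩) hint
  rw [Real.norm_eq_abs] at h4
  refine h4.trans ?_
  rw [intervalIntegral.integral_const_mul]
  have h5 := kap hl
  have h6 : 0 ≤ k0 * A * δ * Real.exp (lam * (1 - t)) := by positivity
  calc k0 * A * δ * Real.exp (lam * (1 - t)) * ∫ u in (0 : ℝ)..1, Real.exp (-lam * u ^ 2)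
      ≤ k0 * A * δ * Real.exp (lam * (1 - t)) * √(Real.pi / lam) :=
        mul_le_mul_of_nonneg_left h5 h6
    _ = _ := by ring

/-- the absolute first moment of the Gaussian -/
noncomputable def A1 : ℝ := ∫ y, |y| ∂(gaussianReal 0 1)

/-- the common constant -/
noncomputable def K0 (β : ℝ) : ℝ := β ^ 2 * (2 + 2 / √(2 * β ^ 2) * A1)

lemma A1_nonneg : 0 ≤ A1 := integral_nonneg fun y => abs_nonneg _

lemma K0_nonneg (β : ℝ) : 0 ≤ K0 β := by
  have := A1_nonneg
  unfold K0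
  positivity

lemma int_y : Integrable (fun y : ℝ => y) (gaussianReal 0 1) :=
  IsGaussian.integrable_id

lemma SP_diff {β : ℝ} {ζ : ℝ → ℝ} (hζ : IsCdf ζ) {C C' δ lam : ℝ} {g g' : ℝ → ℝ → ℝ}
    (hg : BC C g) (hg' : BC C' g') (hδ : 0 ≤ δ) (hl : 0 < lam)
    (hd : ∀ s x, |g s x - g' s x| ≤ δ * Real.exp (lam * (1 - ck s)))
    {t : ℝ} (ht : t ∈ Icc (0 : ℝ) 1) (x : ℝ) :
    |SP β ζ g t x - SP β ζ g' t x| ≤
      K0 β * √(Real.pi / lam) * (δ * Real.exp (lam * (1 - t))) := by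
  have h := gen (σ := √(2 * β ^ 2)) hζ (k := fun u => 2 * u) (m := fun _ => 1) (k0 := 2)
    (by fun_prop)
    (by
      intro u hu
      rw [abs_of_nonneg (by linarith [hu.1])]
      linarith [hu.2]) (by norm_num) continuous_const (integrable_const _) hg hg' hδ hl hd ht x
  simp only [one_mul, abs_one, integral_const, probReal_univ, smul_eq_mul, mul_one] at h
  unfold SP
  rw [← mul_sub, abs_mul, abs_of_nonneg (sq_nonneg β)]
  refine (mul_le_mul_of_nonneg_left h (sq_nonneg β)).trans ?_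
  have h1 : β ^ 2 * 2 ≤ K0 β := by
    have := A1_nonneg
    unfold K0
    have h2 : 0 ≤ β ^ 2 * (2 / √(2 * β ^ 2) * A1) := by positivity
    linarith
  have h2 : 0 ≤ √(Real.pi / lam) * (δ * Real.exp (lam * (1 - t))) := by positivity
  calc β ^ 2 * (2 * √(Real.pi / lam) * δ * Real.exp (lam * (1 - t)))
      = β ^ 2 * 2 * (√(Real.pi / lam) * (δ * Real.exp (lam * (1 - t)))) := by ring
    _ ≤ K0 β * (√(Real.pi / lam) * (δ * Real.exp (lam * (1 - t)))) :=
        mul_le_mul_of_nonneg_right h1 h2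
    _ = _ := by ring

lemma SD_diff {β : ℝ} {ζ : ℝ → ℝ} (hζ : IsCdf ζ) {C C' δ lam : ℝ} {g g' : ℝ → ℝ → ℝ}
    (hg : BC C g) (hg' : BC C' g') (hδ : 0 ≤ δ) (hl : 0 < lam)
    (hd : ∀ s x, |g s x - g' s x| ≤ δ * Real.exp (lam * (1 - ck s)))
    {t : ℝ} (ht : t ∈ Icc (0 : ℝ) 1) (x : ℝ) :
    |SD β ζ g t x - SD β ζ g' t x| ≤
      K0 β * √(Real.pi / lam) * (δ * Real.exp (lam * (1 - t))) := by
  have h0 : 0 ≤ 2 / √(2 * β ^ 2) := by positivity
  have h := gen (σ := √(2 * β ^ 2)) hζ (k := fun _ => 2 / √(2 * β ^ 2)) (m := fun y => y)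
    (k0 := 2 / √(2 * β ^ 2)) continuous_const
    (by
      intro u hu
      rw [abs_of_nonneg h0]) h0 continuous_id int_y hg hg' hδ hl hd ht x
  unfold SD
  rw [← mul_sub, abs_mul, abs_of_nonneg (sq_nonneg β)]
  refine (mul_le_mul_of_nonneg_left h (sq_nonneg β)).trans ?_
  have h1 : β ^ 2 * (2 / √(2 * β ^ 2) * A1) ≤ K0 β := by
    unfold K0
    nlinarith [sq_nonneg β]
  have h2 : 0 ≤ √(Real.pi / lam) * (δ * Real.exp (lam * (1 - t))) := by positivity
  calc β ^ 2 * (2 / √(2 * β ^ 2) * (∫ y, |y| ∂(gaussianReal 0 1)) * √(Real.pi / lam) * δ *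
        Real.exp (lam * (1 - t)))
      = β ^ 2 * (2 / √(2 * β ^ 2) * A1) * (√(Real.pi / lam) * (δ * Real.exp (lam * (1 - t)))) := by
        unfold A1
        ring
    _ ≤ K0 β * (√(Real.pi / lam) * (δ * Real.exp (lam * (1 - t)))) :=
        mul_le_mul_of_nonneg_right h1 h2
    _ = _ := by ring

lemma SD_zero (β : ℝ) (ζ : ℝ → ℝ) (t x : ℝ) : SD β ζ (fun _ _ => 0) t x = 0 := by
  unfold SD E1
  simp

lemma abs_cl_le {M : ℝ} (hM : 0 ≤ M) (u : ℝ) : |cl M u| ≤ M := by
  unfold cl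
  rw [abs_le]
  exact ⟨le_max_left _ _, max_le (by linarith) (min_le_right _ _)⟩

lemma abs_cl_le_abs {M : ℝ} (hM : 0 ≤ M) (u : ℝ) : |cl M u| ≤ |u| := by
  unfold cl
  rcases le_total u M with h | h
  · rw [min_eq_left h]
    rcases le_total (-M) u with h' | h'
    · rw [max_eq_right h']
    · rw [max_eq_left h', abs_neg, abs_of_nonneg hM, abs_of_nonpos (by linarith)]
      linarith
  · rw [min_eq_right h, max_eq_right (by linarith), abs_of_nonneg hM]
    exact h.trans (le_abs_self u)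

lemma cl_lip (M u v : ℝ) : |cl M u - cl M v| ≤ |u - v| := by
  unfold cl
  have h1 := abs_max_sub_max_le_abs (min u M) (min v M) (-M)
  rw [max_comm (-M), max_comm (-M)]
  exact h1.trans (abs_min_sub_min_le_max u M v M |>.trans (by simp))

lemma cl_eq {M u : ℝ} (h : |u| ≤ M) : cl M u = u := by
  unfold cl
  rw [abs_le] at h
  rw [min_eq_left h.2, max_eq_right h.1]

lemma cont_cl (M : ℝ) : Continuous (cl M) := by
  unfold cl
  fun_prop

lemma exists_lam {K ε : ℝ} (hK : 0 ≤ K) (hε : 0 < ε) : ∃ lam : ℝ, 0 < lam ∧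
    K * √(Real.pi / lam) ≤ ε := by
  have hp := Real.pi_pos
  have h1 : 0 < K / ε + 1 := by positivity
  refine ⟨Real.pi * (K / ε + 1) ^ 2, by positivity, ?_⟩
  have h2 : Real.pi / (Real.pi * (K / ε + 1) ^ 2) = (1 / (K / ε + 1)) ^ 2 := by
    field_simp
  rw [h2, Real.sqrt_sq (by positivity), mul_one_div, div_le_iff₀ h1]
  have h3 : ε * (K / ε + 1) = K + ε := by
    field_simp
  rw [h3]
  linarith

/-- the truncated nonlinearity -/
noncomputable def TT (β : ℝ) (ζ : ℝ → ℝ) (M : ℝ) (g : ℝ → ℝ → ℝ) (t x : ℝ) : ℝ :=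
  2 * cl 1 (WW β ζ g (ck t) x) * cl M (ZZ β ζ g (ck t) x)

lemma TT_bound {β M : ℝ} {ζ : ℝ → ℝ} (hM : 0 ≤ M) (g : ℝ → ℝ → ℝ) (t x : ℝ) :
    |TT β ζ M g t x| ≤ 2 * M := by
  unfold TT
  rw [abs_mul, abs_mul]
  have h1 := abs_cl_le zero_le_one (WW β ζ g (ck t) x)
  have h2 := abs_cl_le hM (ZZ β ζ g (ck t) x)
  have h3 : |(2 : ℝ)| = 2 := abs_of_pos two_pos
  rw [h3]
  calc 2 * |cl 1 (WW β ζ g (ck t) x)| * |cl M (ZZ β ζ g (ck t) x)| ≤ 2 * 1 * M := by
        gcongr
    _ = 2 * M := by ring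

lemma TT_cont (hCT : St_CT) (hPT : St_PT) {β C : ℝ} (hβ : 0 < β) {ζ : ℝ → ℝ} (hζ : IsCdf ζ)
    {g : ℝ → ℝ → ℝ} (hg : BC C g) (M : ℝ) :
    Continuous (fun p : ℝ × ℝ => TT β ζ M g p.1 p.2) := by
  obtain ⟨c1, c2⟩ := hCT β C ζ g hβ hζ hg
  obtain ⟨p1, p2, -⟩ := hPT β hβ
  have hW : Continuous (fun p : ℝ × ℝ => WW β ζ g (ck p.1) p.2) := by
    unfold WW
    exact p1.1.add c1.1
  have hZ : Continuous (fun p : ℝ × ℝ => ZZ β ζ g (ck p.1) p.2) := by
    unfold ZZ
    exact p2.1.add c2.1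
  unfold TT
  exact (continuous_const.mul ((cont_cl 1).comp hW)).mul ((cont_cl M).comp hZ)

lemma TT_diff {β M : ℝ} (hM : 0 ≤ M) {ζ : ℝ → ℝ} (hζ : IsCdf ζ) {C C' δ lam : ℝ}
    {g g' : ℝ → ℝ → ℝ} (hg : BC C g) (hg' : BC C' g') (hδ : 0 ≤ δ) (hl : 0 < lam)
    (hd : ∀ s x, |g s x - g' s x| ≤ δ * Real.exp (lam * (1 - ck s))) (t x : ℝ) :
    |TT β ζ M g t x - TT β ζ M g' t x| ≤
      (2 * M + 2) * (K0 β * √(Real.pi / lam)) * (δ * Real.exp (lam * (1 - ck t))) := by
  have a1 := SP_diff (β := β) hζ hg hg' hδ hl hd (ck_mem t) x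
  have a2 := SD_diff (β := β) hζ hg hg' hδ hl hd (ck_mem t) x
  set R := K0 β * √(Real.pi / lam) * (δ * Real.exp (lam * (1 - ck t))) with hR
  have hW : |WW β ζ g (ck t) x - WW β ζ g' (ck t) x| ≤ R := by
    unfold WW
    rw [add_sub_add_left_eq_sub]
    exact a1
  have hZ : |ZZ β ζ g (ck t) x - ZZ β ζ g' (ck t) x| ≤ R := by
    unfold ZZ
    rw [add_sub_add_left_eq_sub]
    exact a2
  have b1 := (cl_lip 1 (WW β ζ g (ck t) x) (WW β ζ g' (ck t) x)).trans hW
  have b2 := (cl_lip M (ZZ β ζ g (ck t) x) (ZZ β ζ g' (ck t) x)).trans hZ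
  have b3 := abs_cl_le hM (ZZ β ζ g (ck t) x)
  have b4 := abs_cl_le zero_le_one (WW β ζ g' (ck t) x)
  have hR0 : 0 ≤ R := (abs_nonneg _).trans a1
  unfold TT
  set w := cl 1 (WW β ζ g (ck t) x)
  set w' := cl 1 (WW β ζ g' (ck t) x)
  set z := cl M (ZZ β ζ g (ck t) x)
  set z' := cl M (ZZ β ζ g' (ck t) x)
  have e : 2 * w * z - 2 * w' * z' = 2 * ((w - w') * z) + 2 * (w' * (z - z')) := by ring
  rw [e]
  calc |2 * ((w - w') * z) + 2 * (w' * (z - z'))|
      ≤ |2 * ((w - w') * z)| + |2 * (w' * (z - z'))| := abs_add_le _ _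
    _ = 2 * (|w - w'| * |z|) + 2 * (|w'| * |z - z'|) := by
        rw [abs_mul, abs_mul, abs_mul, abs_mul, abs_of_pos (two_pos : (0 : ℝ) < 2)]
    _ ≤ 2 * (R * M) + 2 * (1 * R) := by gcongr
    _ = (2 * M + 2) * R := by ring
    _ = _ := by rw [hR]; ring

theorem t_FP (hCT : St_CT) (hPT : St_PT) : St_FP := by
  intro β ζ hβ hζ
  obtain ⟨lam0, hl0, hk0⟩ := exists_lam (K0_nonneg β) (show (0 : ℝ) < 1 / 4 by norm_num)
  set M : ℝ := 1 + Real.exp lam0 with hMdef
  have hM : 0 ≤ M := by positivity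
  obtain ⟨lam, hl, hk⟩ := exists_lam (K := (2 * M + 2) * K0 β)
    (mul_nonneg (by positivity) (K0_nonneg β)) (show (0 : ℝ) < 1 / 2 by norm_num)
  -- the conjugated functions
  let G : BoundedContinuousFunction (ℝ × ℝ) ℝ → ℝ → ℝ → ℝ :=
    fun h t x => Real.exp (lam * (1 - ck t)) * h (t, x)
  have hG : ∀ h, BC (Real.exp lam * ‖h‖) (G h) := by
    intro h
    constructor
    · have := cont_ck
      exact (by fun_prop : Continuous fun p : ℝ × ℝ => Real.exp (lam * (1 - ck p.1))).mul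
        h.continuous
    · intro t x
      simp only [G]
      rw [abs_mul, abs_of_pos (Real.exp_pos _)]
      refine mul_le_mul ?_ (by simpa using h.norm_coe_le_norm (t, x)) (abs_nonneg _)
        (Real.exp_pos _).le
      apply Real.exp_le_exp.mpr
      nlinarith [(ck_mem t).1, (ck_mem t).2]
  have hexp1 : ∀ t, Real.exp (-(lam * (1 - ck t))) ≤ 1 := by
    intro t
    rw [Real.exp_le_one_iff]
    nlinarith [(ck_mem t).2]
  let Ψ : BoundedContinuousFunction (ℝ × ℝ) ℝ → BoundedContinuousFunction (ℝ × ℝ) ℝ := fun h =>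
    BoundedContinuousFunction.ofNormedAddCommGroup
      (fun p : ℝ × ℝ => Real.exp (-(lam * (1 - ck p.1))) * TT β ζ M (G h) p.1 p.2)
      (by
        have := cont_ck
        exact (by fun_prop : Continuous fun p : ℝ × ℝ => Real.exp (-(lam * (1 - ck p.1)))).mul
          (TT_cont hCT hPT hβ hζ (hG h) M)) (2 * M)
      (by
        intro p
        rw [norm_mul, Real.norm_eq_abs, Real.norm_eq_abs, abs_of_pos (Real.exp_pos _)]
        calc Real.exp (-(lam * (1 - ck p.1))) * |TT β ζ M (G h) p.1 p.2| ≤ 1 * (2 * M) := by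
              refine mul_le_mul (hexp1 _) (TT_bound hM _ _ _) (abs_nonneg _) zero_le_one
          _ = 2 * M := one_mul _)
  have hΨ : ∀ h p, Ψ h p = Real.exp (-(lam * (1 - ck p.1))) * TT β ζ M (G h) p.1 p.2 :=
    fun h p => rfl
  have hlip : ∀ h h', dist (Ψ h) (Ψ h') ≤ 1 / 2 * dist h h' := by
    intro h h'
    refine (BoundedContinuousFunction.dist_le (by positivity)).mpr ?_
    rintro ⟨t, x⟩
    rw [Real.dist_eq, hΨ, hΨ, ← mul_sub, abs_mul, abs_of_pos (Real.exp_pos _)]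
    have hd : ∀ s x, |G h s x - G h' s x| ≤ dist h h' * Real.exp (lam * (1 - ck s)) := by
      intro s x
      simp only [G]
      rw [← mul_sub, abs_mul, abs_of_pos (Real.exp_pos _), mul_comm]
      exact mul_le_mul_of_nonneg_right (by
        rw [← Real.dist_eq]
        exact BoundedContinuousFunction.dist_coe_le_dist (s, x)) (Real.exp_pos _).le
    have h1 := TT_diff (β := β) hM hζ (hG h) (hG h') dist_nonneg hl hd t x
    have h2 : Real.exp (-(lam * (1 - ck t))) * Real.exp (lam * (1 - ck t)) = 1 := by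
      rw [← Real.exp_add]
      simp
    calc Real.exp (-(lam * (1 - ck (t, x).1))) *
          |TT β ζ M (G h) (t, x).1 (t, x).2 - TT β ζ M (G h') (t, x).1 (t, x).2|
        ≤ Real.exp (-(lam * (1 - ck t))) * ((2 * M + 2) * (K0 β * √(Real.pi / lam)) *
            (dist h h' * Real.exp (lam * (1 - ck t)))) :=
          mul_le_mul_of_nonneg_left h1 (Real.exp_pos _).le
      _ = ((2 * M + 2) * K0 β * √(Real.pi / lam)) * dist h h' *
            (Real.exp (-(lam * (1 - ck t))) * Real.exp (lam * (1 - ck t))) := by ring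
      _ = ((2 * M + 2) * K0 β * √(Real.pi / lam)) * dist h h' := by rw [h2, mul_one]
      _ ≤ 1 / 2 * dist h h' := mul_le_mul_of_nonneg_right hk dist_nonneg
  have hcon : ContractingWith (1 / 2 : NNReal) Ψ := by
    refine ⟨by
      rw [← NNReal.coe_lt_coe]
      norm_num, ?_⟩
    refine LipschitzWith.of_dist_le_mul fun h h' => ?_
    have := hlip h h'
    simpa using this
  set h := hcon.fixedPoint Ψ with hh
  have hfix : Ψ h = h := hcon.fixedPoint_isFixedPt
  have hgT : ∀ t x, G h t x = TT β ζ M (G h) t x := by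
    intro t x
    have h1 : h (t, x) = Real.exp (-(lam * (1 - ck t))) * TT β ζ M (G h) t x := by
      rw [← hΨ h (t, x), hfix]
    change Real.exp (lam * (1 - ck t)) * h (t, x) = _
    rw [h1, ← mul_assoc, ← Real.exp_add]
    simp
  have hbd : ∀ t x, |G h t x| ≤ 2 * M := by
    intro t x
    rw [hgT]
    exact TT_bound hM _ _ _
  have hz0 : BC 0 (fun _ _ : ℝ => (0 : ℝ)) := ⟨continuous_const, fun t x => by simp⟩
  obtain ⟨-, p2, -⟩ := hPT β hβ
  -- the a priori bound
  have hZb : ∀ (δ : ℝ), 0 ≤ δ → (∀ t x, |G h t x| ≤ δ * Real.exp (lam0 * (1 - ck t))) →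
      ∀ t x, |ZZ β ζ (G h) (ck t) x| ≤ 1 + 1 / 4 * (δ * Real.exp (lam0 * (1 - ck t))) := by
    intro δ hδ hb t x
    have h1 := SD_diff (β := β) hζ (hG h) hz0 hδ hl0 (fun s x => by simpa using hb s x)
      (ck_mem t) x
    rw [SD_zero, sub_zero] at h1
    have h2 : |PP β (fun x => sech x ^ 2) (ck t) x| ≤ 1 := p2.2 t x
    unfold ZZ
    refine (abs_add_le _ _).trans (add_le_add h2 (h1.trans ?_))
    exact mul_le_mul_of_nonneg_right hk0 (by positivity)
  have hone : ∀ t, 1 ≤ Real.exp (lam0 * (1 - ck t)) := by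
    intro t
    rw [Real.one_le_exp_iff]
    nlinarith [(ck_mem t).2]
  have hgZ : ∀ t x, |G h t x| ≤ 2 * |ZZ β ζ (G h) (ck t) x| := by
    intro t x
    rw [hgT]
    unfold TT
    rw [abs_mul, abs_mul, abs_of_pos (two_pos : (0 : ℝ) < 2)]
    have h1 := abs_cl_le zero_le_one (WW β ζ (G h) (ck t) x)
    have h2 := abs_cl_le_abs hM (ZZ β ζ (G h) (ck t) x)
    calc 2 * |cl 1 (WW β ζ (G h) (ck t) x)| * |cl M (ZZ β ζ (G h) (ck t) x)|
        ≤ 2 * 1 * |ZZ β ζ (G h) (ck t) x| := by gcongr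
      _ = _ := by ring
  have hn : ∀ n : ℕ, ∀ t x, |G h t x| ≤
      (4 + 2 * M * (1 / 2) ^ n) * Real.exp (lam0 * (1 - ck t)) := by
    intro n
    induction n with
    | zero =>
      intro t x
      have h1 := hone t
      calc |G h t x| ≤ 2 * M := hbd t x
        _ ≤ (4 + 2 * M * (1 / 2) ^ 0) * 1 := by
            rw [pow_zero]
            linarith
        _ ≤ _ := mul_le_mul_of_nonneg_left h1 (by positivity)
    | succ n ih =>
      intro t x
      have h1 := hZb _ (by positivity) ih t x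
      have h2 := hgZ t x
      have h3 := hone t
      rw [pow_succ]
      nlinarith
  have h4 : ∀ t x, |G h t x| ≤ 4 * Real.exp (lam0 * (1 - ck t)) := by
    intro t x
    have hlim : Tendsto (fun n : ℕ => (4 + 2 * M * (1 / 2 : ℝ) ^ n) *
        Real.exp (lam0 * (1 - ck t))) atTop (𝓝 ((4 + 2 * M * 0) *
          Real.exp (lam0 * (1 - ck t)))) := by
      refine Tendsto.mul_const _ (Tendsto.const_add _ (Tendsto.const_mul _ ?_))
      exact tendsto_pow_atTop_nhds_zero_of_lt_one (by norm_num) (by norm_num)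
    have := ge_of_tendsto' hlim (fun n => hn n t x)
    simpa using this
  refine ⟨Real.exp lam * ‖h‖, G h, hG h, ?_⟩
  intro t x
  have h5 := hZb 4 (by norm_num) h4 t x
  have h6 : |ZZ β ζ (G h) (ck t) x| ≤ M := by
    refine h5.trans ?_
    have h7 : Real.exp (lam0 * (1 - ck t)) ≤ Real.exp lam0 := by
      apply Real.exp_le_exp.mpr
      nlinarith [(ck_mem t).1]
    rw [hMdef]
    linarith
  have h8 := hgT t x
  unfold TT at h8
  rw [cl_eq h6] at h8
  exact h8

end Pool.TH560.AT
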